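import Mathlib
import Pool.Agent.Results.MP_155ab0_nt.LogCountLimitZero

/-! # Distinct multinomial coefficients versus restricted partitions: all large `n` -/

set_option autoImplicit false

namespace Pool.Agent.Results.MP_2e8272_nt.LargeN

open Finset Filter Topology

open Pool.Agent.Results.MP_155ab0_nt.LogCountLimitZero (M M_pos)

/-- the number of partitions of `n` in which every part `a` satisfies `a ≤ 7` or `3 ∣ a` -/
def pSharp (n : ℕ) : ℕ :=
  ((univ : Finset n.Partition).filter (fun p => ∀ a ∈ p.parts, a ≤ 7 ∨ 3 ∣ a)).card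

/-- the multiset of the parts `3 s`, `s ∈ S`, completed by ones -/
def parts (n : ℕ) (S : Finset ℕ) : Multiset ℕ :=
  S.val.map (fun s => 3 * s) + Multiset.replicate (n - ∑ s ∈ S, 3 * s) 1

theorem parts_sum (n : ℕ) (S : Finset ℕ) (h : ∑ s ∈ S, 3 * s ≤ n) : (parts n S).sum = n := by
  unfold parts
  rw [Multiset.sum_add, Multiset.sum_replicate, smul_eq_mul, mul_one]
  have h1 : (S.val.map (fun s => 3 * s)).sum = ∑ s ∈ S, 3 * s := rfl
  rw [h1]
  omega

theorem sum_le (m : ℕ) (S : Finset ℕ) (hS : S ⊆ Icc 1 m) : ∑ s ∈ S, 3 * s ≤ 3 * (m * m) := by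
  calc ∑ s ∈ S, 3 * s ≤ ∑ s ∈ Icc 1 m, 3 * s := Finset.sum_le_sum_of_subset hS
    _ ≤ ∑ s ∈ Icc 1 m, 3 * m := Finset.sum_le_sum fun s hs => by
        rw [mem_Icc] at hs; omega
    _ = 3 * (m * m) := by rw [Finset.sum_const, Nat.card_Icc, smul_eq_mul, Nat.add_sub_cancel]; ring

theorem mem_parts (n : ℕ) (S : Finset ℕ) (j : ℕ) (_hj : 1 ≤ j) : 3 * j ∈ parts n S ↔ j ∈ S := by
  unfold parts
  rw [Multiset.mem_add, Multiset.mem_map]
  constructor
  · rintro (⟨s, hs, h⟩ | h)
    · have : s = j := by omega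
      rw [← this]; exact hs
    · have := Multiset.eq_of_mem_replicate h
      omega
  · intro h
    exact Or.inl ⟨j, h, rfl⟩

theorem pow_le_pSharp (n m : ℕ) (h : 3 * (m * m) ≤ n) : 2 ^ m ≤ pSharp n := by
  unfold pSharp
  have hcard : ((Icc 1 m).powerset).card = 2 ^ m := by
    rw [Finset.card_powerset, Nat.card_Icc, Nat.add_sub_cancel]
  rw [← hcard]
  have hs : ∀ S ∈ (Icc 1 m).powerset, (parts n S).sum = n := fun S hS =>
    parts_sum n S ((sum_le m S (Finset.mem_powerset.1 hS)).trans h)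
  have hp : ∀ S ∈ (Icc 1 m).powerset, ∀ i ∈ parts n S, 0 < i := by
    intro S hS i hi
    unfold parts at hi
    rw [Multiset.mem_add, Multiset.mem_map] at hi
    rcases hi with ⟨s, hs', rfl⟩ | hi
    · have := (mem_Icc.1 (Finset.mem_powerset.1 hS hs')).1
      omega
    · rw [Multiset.eq_of_mem_replicate hi]; norm_num
  let f : (S : Finset ℕ) → S ∈ (Icc 1 m).powerset → n.Partition := fun S hS =>
    { parts := parts n S
      parts_pos := fun {i} hi => hp S hS i hi
      parts_sum := hs S hS }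
  apply Finset.card_le_card_of_injOn (fun S => if hS : S ∈ (Icc 1 m).powerset then f S hS else
    Nat.Partition.indiscrete n)
  · intro S hS
    have hS' : S ∈ (Icc 1 m).powerset := hS
    rw [Finset.mem_coe, mem_filter]
    refine ⟨mem_univ _, ?_⟩
    intro a ha
    have ha0 : a ∈ (if hS : S ∈ (Icc 1 m).powerset then f S hS else
      Nat.Partition.indiscrete n).parts := ha
    rw [dif_pos hS'] at ha0
    have ha' : a ∈ parts n S := ha0
    unfold parts at ha'
    rw [Multiset.mem_add, Multiset.mem_map] at ha'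
    rcases ha' with ⟨s, _, rfl⟩ | ha'
    · right; exact Nat.dvd_mul_right _ _
    · left; rw [Multiset.eq_of_mem_replicate ha']; norm_num
  · intro S hS S' hS' heq
    have h1 : S ∈ (Icc 1 m).powerset := hS
    have h2 : S' ∈ (Icc 1 m).powerset := hS'
    have h3 : f S h1 = f S' h2 := by
      have h4 : (if hS : S ∈ (Icc 1 m).powerset then f S hS else Nat.Partition.indiscrete n) =
        (if hS : S' ∈ (Icc 1 m).powerset then f S' hS else Nat.Partition.indiscrete n) := heq
      rw [dif_pos h1, dif_pos h2] at h4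
      exact h4
    have h5 : parts n S = parts n S' := congrArg Nat.Partition.parts h3
    ext j
    have h6 := Finset.mem_powerset.1 h1
    have h7 := Finset.mem_powerset.1 h2
    constructor
    · intro hj
      have hj1 := (mem_Icc.1 (h6 hj)).1
      rw [← mem_parts n S' j hj1, ← h5, mem_parts n S j hj1]
      exact hj
    · intro hj
      have hj1 := (mem_Icc.1 (h7 hj)).1
      rw [← mem_parts n S j hj1, h5, mem_parts n S' j hj1]
      exact hj

/-- For every real `A`, `M(n) ^ A ≤ p#(n)` for all large `n`; in particular `M(n) ≤ p#(n)` for all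
large `n`. -/
theorem result (A : ℝ) : ∀ᶠ n : ℕ in atTop, (M n : ℝ) ^ A ≤ pSharp n := by
  -- log M(n) ≤ δ √n with δ small
  have hlim := Pool.Agent.Results.MP_155ab0_nt.LogCountLimitZero.result
  set δ : ℝ := 1 / (10 * (|A| + 1)) with hδ
  have hδ0 : 0 < δ := by positivity
  have h1 : ∀ᶠ n : ℕ in atTop, Real.log (M n) / Real.sqrt n < δ := hlim.eventually_lt_const hδ0
  filter_upwards [h1, eventually_ge_atTop 100] with n hn hn1
  have hn0 : (0 : ℝ) < n := by exact_mod_cast (by omega : 0 < n)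
  have hs : 0 < Real.sqrt n := Real.sqrt_pos.2 hn0
  have hs10 : 10 ≤ Real.sqrt n := by
    apply Real.le_sqrt_of_sq_le
    have : (100 : ℝ) ≤ n := by exact_mod_cast hn1
    linarith
  rw [div_lt_iff₀ hs] at hn
  have hM0 : (0 : ℝ) < M n := by exact_mod_cast M_pos n
  have hM1 : (1 : ℝ) ≤ M n := by exact_mod_cast M_pos n
  have hlog0 := Real.log_nonneg hM1
  set m : ℕ := ⌊Real.sqrt n / 2⌋₊ with hm
  have hm1 : (m : ℝ) ≤ Real.sqrt n / 2 := Nat.floor_le (by positivity)
  have hm2 : Real.sqrt n / 2 < m + 1 := Nat.lt_floor_add_one _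
  have hmn : 3 * (m * m) ≤ n := by
    have h2 : (m : ℝ) * m ≤ (Real.sqrt n / 2) * (Real.sqrt n / 2) :=
      mul_le_mul hm1 hm1 (Nat.cast_nonneg _) (by positivity)
    have h3 : Real.sqrt n * Real.sqrt n = n := Real.mul_self_sqrt hn0.le
    have h4 : ((3 * (m * m) : ℕ) : ℝ) ≤ n := by push_cast; nlinarith
    exact_mod_cast h4
  have hp := pow_le_pSharp n m hmn
  have hp' : (2 : ℝ) ^ m ≤ pSharp n := by exact_mod_cast hp
  refine le_trans ?_ hp'
  rw [Real.rpow_def_of_pos hM0]
  have h2 : (2 : ℝ) ^ m = Real.exp (Real.log 2 * m) := by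
    rw [← Real.rpow_natCast, Real.rpow_def_of_pos (by norm_num)]
  rw [h2]
  apply Real.exp_le_exp.2
  have h3 : Real.log (M n) * A ≤ Real.log (M n) * (|A| + 1) := by
    apply mul_le_mul_of_nonneg_left _ hlog0
    have := le_abs_self A
    linarith
  have h4 : Real.log (M n) * (|A| + 1) ≤ δ * Real.sqrt n * (|A| + 1) :=
    mul_le_mul_of_nonneg_right hn.le (by positivity)
  have h5 : δ * Real.sqrt n * (|A| + 1) = Real.sqrt n / 10 := by
    rw [hδ]
    have : |A| + 1 ≠ 0 := by positivity
    field_simp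
  have h6 := Real.log_two_gt_d9
  have h7 : (0.6 : ℝ) * m ≤ Real.log 2 * m := mul_le_mul_of_nonneg_right (by linarith) (Nat.cast_nonneg _)
  have h8 : Real.sqrt n / 10 ≤ 0.6 * m := by nlinarith
  linarith

end Pool.Agent.Results.MP_2e8272_nt.LargeN
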